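import Pool.Agent.H814.LD.Fin
import Pool.Agent.H814.LD.UB
import Pool.Agent.H814.LD.SREAL
import Pool.Agent.H814.LD.Fin4
import Pool.Agent.H814.LD.SREAL4

/-!
# The local dimension of disconnected posets

Let `f d` be the maximum of the local dimension of a finite disconnected poset all of whose components
have local dimension at most `d`. The theorem says that `f d = d + 2` for all `d ≥ 5`, and that `f 4` is `5` or
`6`.

Upper bound: the union of local realizers of the components and two full linear extensions, in which the
components are arranged in opposite orders.

Lower bound. Let `T` be the poset with the points `x i v`, `i < n`, `v` a vector of length `t = d - 2` with
entries smaller than `N`, and `y i a q`, with `x i v < y i a q` iff `v a < q`, and `x i v < y j a q` for all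
`j ≠ i`; for fixed `i` the points `x i v` carry the product order and for fixed `i`, `a` the points `y i a q` are a
chain. The local dimension is at most `t + 2`. A box Ramsey argument gives in every local realizer of
frequency `D`, for each `i`, a point `x i v` in `t` different members in which `y i a (v a)` is before `x i v` for
some `a` (active members), and a member is active for one `i` only.

The poset `S` is of the same kind, with `11` blocks, which are the translates of the difference set
`{1, 3, 4, 5, 9}` modulo `11`, each with `d - 5` additional elements of its own. Its local realizer has one member
for each of the `11` points and for each additional element; the member of the point `c` contains the five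
blocks which contain `c`, in an order such that any two blocks, which have exactly two points in common, are in
opposite orders in these two members. Here `x i v < y j a q` for `j ≠ i` unless the point of `(j, a)` is in the
block `i` and `j` comes before `i` in the member of this point. Three points never meet all of the eleven
blocks.

In a local realizer of `S ⊕ T` with frequencies at most `d + 1` take `i` such that no member which contains
points of `S` is active at the block `i` of `T` (`n` is large). Then the corresponding point `x i v` of `T` is in at
most three members which contain points of `S`. Each point of `S` is in two of these three, and for each
block of `S` one of the three must be active. But all the blocks which are active in one member have a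
point in common (look at the lowest `y j a q` of the member which is before one of its `x j v` with `v a = q`), a
contradiction.

For `d = 4` the same argument with the translates of `{0, 3, 5, 6}` modulo `7`, frequencies at most `4`, two
members instead of three, shows that `f 4 > 4`.
-/

set_option autoImplicit false

open Pool.Agent.H814.LD

namespace Pool.Agent.Results.MP_33f591_co.DisconnectedPosets

theorem result : (∀ d : ℕ, 5 ≤ d → IsGreatest (vals d) (d + 2)) ∧
    ∃ n, IsGreatest (vals 4) n ∧ 5 ≤ n ∧ n ≤ 6 :=
  ⟨main_ge (t_ub t_idx t_key) (t_sreal t_idx t_key),
    main_four (t_ub t_idx t_key) (t_sreal4 t_idx t_key)⟩

end Pool.Agent.Results.MP_33f591_co.DisconnectedPosets
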